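import Pool.Agent.UL7.Stmts

/-!
# Squad UL7: the hulls of two opposite faces
-/

set_option autoImplicit false

namespace Pool.Agent.UL7.H32

open MeasureTheory Set Pool.Agent.UL3 Pool.Agent.UL4 Pool.Agent.UL5 Pool.Agent.UL7

theorem mem_hull {F : Set E3} {c : E3} (hF : Convex ℝ F) (hne : F.Nonempty) (x : E3) :
    x ∈ convexHull ℝ (F ∪ (fun y => (2 : ℝ) • c - y) '' F) ↔
      ∃ y ∈ F, ∃ z ∈ F, ∃ t : ℝ, t ∈ Icc (0 : ℝ) 1 ∧ x = (1 - t) • y + t • ((2 : ℝ) • c - z) := by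
  have hG : Convex ℝ ((fun y => (2 : ℝ) • c - y) '' F) := by
    rintro _ ⟨y, hy, rfl⟩ _ ⟨z, hz, rfl⟩ a b ha hb hab
    refine ⟨a • y + b • z, hF hy hz ha hb hab, ?_⟩
    show (2 : ℝ) • c - (a • y + b • z) = a • ((2 : ℝ) • c - y) + b • ((2 : ℝ) • c - z)
    have : (2 : ℝ) • c = (a + b) • (2 : ℝ) • c := by rw [hab, one_smul]
    nth_rewrite 1 [this]
    module
  rw [hF.convexHull_union hG hne (hne.image _), mem_convexJoin]
  constructor
  · rintro ⟨y, hy, _, ⟨z, hz, rfl⟩, a, b, ha, hb, hab, rfl⟩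
    refine ⟨y, hy, z, hz, b, ⟨hb, by linarith⟩, ?_⟩
    have : a = 1 - b := by linarith
    rw [this]
  · rintro ⟨y, hy, z, hz, t, ht, rfl⟩
    exact ⟨y, hy, _, ⟨z, hz, rfl⟩, 1 - t, t, by linarith [ht.2], ht.1, by ring, rfl⟩

theorem hul (h : TopStmt) :
    ∀ (F : Set E3) (c n : E3), IsCompact F → Convex ℝ F → F.Nonempty →
      (∀ x ∈ F, inner ℝ (x - c) n = 1) →
      ∀ K : Set E3, (K = convexHull ℝ (F ∪ (fun x => (2 : ℝ) • c - x) '' F) ∨
          ∃ m : E3, m ≠ 0 ∧ K = {x | x ∈ convexHull ℝ (F ∪ (fun x => (2 : ℝ) • c - x) '' F) ∧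
            0 ≤ inner ℝ (x - c) m}) →
        (interior K).Nonempty → Concl 1 K := by
  intro F c n hFc hF hne hn K hK hi
  have hcpt : IsCompact (convexHull ℝ (F ∪ (fun x => (2 : ℝ) • c - x) '' F)) := by
    have h1 : convexHull ℝ (F ∪ (fun x => (2 : ℝ) • c - x) '' F) =
        (fun q : (E3 × E3) × ℝ => (1 - q.2) • q.1.1 + q.2 • ((2 : ℝ) • c - q.1.2)) ''
          ((F ×ˢ F) ×ˢ Icc (0 : ℝ) 1) := by
      ext x
      rw [mem_hull hF hne]
      constructor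
      · rintro ⟨y, hy, z, hz, t, ht, rfl⟩
        exact ⟨((y, z), t), ⟨⟨hy, hz⟩, ht⟩, rfl⟩
      · rintro ⟨⟨⟨y, z⟩, t⟩, ⟨⟨hy, hz⟩, ht⟩, rfl⟩
        exact ⟨y, hy, z, hz, t, ht, rfl⟩
    rw [h1]
    exact ((hFc.prod hFc).prod isCompact_Icc).image (by fun_prop)
  have hht : ∀ y ∈ F, ∀ z ∈ F, ∀ t : ℝ,
      inner ℝ ((1 - t) • y + t • ((2 : ℝ) • c - z) - c) n = 1 - 2 * t := by
    intro y hy z hz t
    have h1 : (1 - t) • y + t • ((2 : ℝ) • c - z) - c = (1 - t) • (y - c) - t • (z - c) := by module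
    rw [h1, inner_sub_left, inner_smul_left, inner_smul_left, hn y hy, hn z hz]
    simp only [conj_trivial]
    ring
  have hiD : (interior (convexHull ℝ (F ∪ (fun x => (2 : ℝ) • c - x) '' F))).Nonempty := by
    refine hi.mono (interior_mono ?_)
    rcases hK with hK | ⟨m, -, hK⟩
    · rw [hK]
    · rw [hK]
      exact fun x hx => hx.1
  refine h _ c n 1 hcpt (convex_convexHull ℝ _) hiD ?_ ?_ one_pos ?_ K hK hi
  · intro x hx
    rw [mem_hull hF hne] at hx ⊢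
    obtain ⟨y, hy, z, hz, t, ht, rfl⟩ := hx
    refine ⟨z, hz, y, hy, 1 - t, ⟨by linarith [ht.2], by linarith [ht.1]⟩, ?_⟩
    module
  · intro x hx
    rw [mem_hull hF hne] at hx
    obtain ⟨y, hy, z, hz, t, ht, rfl⟩ := hx
    rw [hht y hy z hz t]
    linarith [ht.1]
  · intro x hx h0
    rw [mem_hull hF hne] at hx
    obtain ⟨y, hy, z, hz, t, ht, rfl⟩ := hx
    rw [hht y hy z hz t] at h0
    have h2 : t = 1 / 2 := by linarith
    refine ⟨y, subset_convexHull ℝ _ (Or.inl hy), z, subset_convexHull ℝ _ (Or.inl hz), hn y hy, hn z hz,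
      ?_⟩
    rw [h2]
    module

end Pool.Agent.UL7.H32
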